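import Pool.Agent.H14.AVR.Stmts2

/-!
# AVR module LDP: many symmetric matrices with a given irreducible characteristic polynomial
-/

set_option autoImplicit false

namespace Pool.AVR

open Polynomial Matrix

namespace LDP

variable {k : Type} [Field k]

/-- The base matrix. -/
def B0 (p r z u w : k) : Matrix (Fin 3) (Fin 3) k := !![p, 0, r; 0, z, u; r, u, w]

/-- The unipotent isometry. -/
def gg (y h : k) : Matrix (Fin 3) (Fin 3) k := !![1, y, -h; 0, 1, -y; 0, 0, 1]

theorem charpoly_B0 (a b c p r z u w : k) (h1 : 2 * r = -(a + z))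
    (h2 : p * w = 2 * r * z + r ^ 2 - b)
    (h3 : p * u ^ 2 = -(z ^ 3 + a * z ^ 2 + b * z + c)) :
    (AA k * B0 p r z u w).charpoly = cub a b c := by
  have e1 : AA k * B0 p r z u w = !![r, u, w; 0, z, u; p, 0, r] := by
    ext i j
    fin_cases i <;> fin_cases j <;> simp [AA, B0, Matrix.mul_apply, Fin.sum_univ_three]
  have h1' : (2 : k[X]) * C r = -(C a + C z) := by
    have := congrArg (C : k → k[X]) h1
    simpa [show (C (2 : k)) = (2 : k[X]) from rfl] using this
  have h2' : (C p : k[X]) * C w = 2 * C r * C z + C r ^ 2 - C b := by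
    have := congrArg (C : k → k[X]) h2
    simpa [show (C (2 : k)) = (2 : k[X]) from rfl] using this
  have h3' : (C p : k[X]) * C u ^ 2 = -(C z ^ 3 + C a * C z ^ 2 + C b * C z + C c) := by
    have := congrArg (C : k → k[X]) h3
    simpa using this
  rw [e1, Matrix.charpoly, Matrix.det_fin_three]
  simp [cub]
  linear_combination (C z ^ 2 - (X : k[X]) ^ 2) * h1' - (X - C z) * h2' - h3'

/-- The matrix `gᵀ B0 g`. -/
def BB (p r z u w y h : k) : Matrix (Fin 3) (Fin 3) k :=
  (gg y h)ᵀ * B0 p r z u w * gg y h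

theorem gg_isom (y h : k) (hh : 2 * h = y ^ 2) : gg y h * AA k * (gg y h)ᵀ = AA k := by
  ext i j
  fin_cases i <;> fin_cases j <;>
    simp [AA, gg, Matrix.mul_apply, Fin.sum_univ_three] <;> linear_combination -hh

theorem charpoly_BB (a b c p r z u w y h : k) (h1 : 2 * r = -(a + z))
    (h2 : p * w = 2 * r * z + r ^ 2 - b)
    (h3 : p * u ^ 2 = -(z ^ 3 + a * z ^ 2 + b * z + c)) (hh : 2 * h = y ^ 2) :
    (AA k * BB p r z u w y h).charpoly = cub a b c := by
  rw [BB, show AA k * ((gg y h)ᵀ * B0 p r z u w * gg y h)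
    = (AA k * (gg y h)ᵀ * B0 p r z u w) * gg y h by simp only [Matrix.mul_assoc],
    Matrix.charpoly_mul_comm,
    show gg y h * (AA k * (gg y h)ᵀ * B0 p r z u w)
      = (gg y h * AA k * (gg y h)ᵀ) * B0 p r z u w by simp only [Matrix.mul_assoc],
    gg_isom y h hh]
  exact charpoly_B0 a b c p r z u w h1 h2 h3

theorem BB_symm (p r z u w y h : k) : (BB p r z u w y h)ᵀ = BB p r z u w y h := by
  have : (B0 p r z u w)ᵀ = B0 p r z u w := by
    ext i j
    fin_cases i <;> fin_cases j <;> simp [B0]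
  simp only [BB, Matrix.transpose_mul, Matrix.transpose_transpose, this, Matrix.mul_assoc]

theorem BB_00 (p r z u w y h : k) : BB p r z u w y h 0 0 = p := by
  simp [BB, gg, B0, Matrix.mul_apply, Fin.sum_univ_three]

theorem BB_01 (p r z u w y h : k) : BB p r z u w y h 0 1 = p * y := by
  simp [BB, gg, B0, Matrix.mul_apply, Fin.sum_univ_three]

theorem BB_11 (p r z u w y h : k) : BB p r z u w y h 1 1 = z + p * y ^ 2 := by
  simp [BB, gg, B0, Matrix.mul_apply, Fin.sum_univ_three]
  ring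

theorem BB_12 (p r z u w y h : k) :
    BB p r z u w y h 1 2 = u - p * y * h + r * y - y * z := by
  simp [BB, gg, B0, Matrix.mul_apply, Fin.sum_univ_three]
  ring

end LDP

open LDP in
theorem ldp_thm : LDPStmt := by
  intro k _ _ h2 a b c hirr
  classical
  -- no roots
  have hroot : ∀ z : k, z ^ 3 + a * z ^ 2 + b * z + c ≠ 0 := by
    intro z hz
    have hr : (cub a b c).IsRoot z := by
      simp [cub, hz]
    have hd : (cub a b c).natDegree = 3 := by
      unfold cub
      compute_degree!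
    have := Polynomial.degree_eq_one_of_irreducible_of_root hirr hr
    rw [Polynomial.degree_eq_natDegree hirr.ne_zero, hd] at this
    norm_num at this
  let f : k → k := fun z => z ^ 3 + a * z ^ 2 + b * z + c
  let φ : k × kˣ × k → Matrix (Fin 3) (Fin 3) k := fun t =>
    BB (-(f t.1) * ((t.2.1⁻¹ : kˣ) : k) ^ 2) (-(a + t.1) / 2) t.1 (t.2.1 : k)
      ((2 * (-(a + t.1) / 2) * t.1 + (-(a + t.1) / 2) ^ 2 - b) /
        (-(f t.1) * ((t.2.1⁻¹ : kˣ) : k) ^ 2)) t.2.2 (t.2.2 ^ 2 / 2)
  have hp : ∀ (z : k) (u : kˣ), -(f z) * ((u⁻¹ : kˣ) : k) ^ 2 ≠ 0 := by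
    intro z u
    exact mul_ne_zero (neg_ne_zero.2 (hroot z)) (pow_ne_zero _ (Units.ne_zero _))
  have hφ : ∀ t, φ t ∈ {B : Matrix (Fin 3) (Fin 3) k | Bᵀ = B ∧
      (AA k * B).charpoly = cub a b c} := by
    intro t
    refine ⟨BB_symm _ _ _ _ _ _ _, charpoly_BB _ _ _ _ _ _ _ _ _ _ ?_ ?_ ?_ ?_⟩
    · field_simp
    · rw [mul_div_cancel₀ _ (hp _ _)]
    · have : ((t.2.1⁻¹ : kˣ) : k) ^ 2 * (t.2.1 : k) ^ 2 = 1 := by
        rw [← mul_pow, ← Units.val_mul, inv_mul_cancel, Units.val_one, one_pow]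
      show -(f t.1) * ((t.2.1⁻¹ : kˣ) : k) ^ 2 * (t.2.1 : k) ^ 2 = _
      rw [mul_assoc, this, mul_one]
    · field_simp
  have hinj : Function.Injective φ := by
    rintro ⟨z, u, y⟩ ⟨z', u', y'⟩ he
    have e0 := congrFun (congrFun he 0) 0
    have e1 := congrFun (congrFun he 0) 1
    have e2 := congrFun (congrFun he 1) 1
    have e3 := congrFun (congrFun he 1) 2
    simp only [φ, BB_00] at e0
    simp only [φ, BB_01] at e1
    simp only [φ, BB_11] at e2
    simp only [φ, BB_12] at e3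
    rw [e0] at e1 e2 e3
    have hy : y = y' := mul_left_cancel₀ (hp _ _) e1
    subst hy
    have hz : z = z' := by linear_combination e2
    subst hz
    have hu : (u : k) = u' := by linear_combination e3
    have hu' : u = u' := Units.ext hu
    rw [hu']
  have hfin : {B : Matrix (Fin 3) (Fin 3) k | Bᵀ = B ∧
      (AA k * B).charpoly = cub a b c}.Finite := Set.toFinite _
  have hsub : Set.range φ ⊆ {B : Matrix (Fin 3) (Fin 3) k | Bᵀ = B ∧
      (AA k * B).charpoly = cub a b c} := by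
    rintro _ ⟨t, rfl⟩
    exact hφ t
  have hcard : (Set.range φ).ncard = Nat.card (k × kˣ × k) := by
    rw [← Set.image_univ, Set.ncard_image_of_injective _ hinj, Set.ncard_univ]
  have h3 := Set.ncard_le_ncard hsub hfin
  rw [hcard] at h3
  refine le_trans (le_of_eq ?_) h3
  rw [Nat.card_prod, Nat.card_prod, Nat.card_units]
  ring

end Pool.AVR
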